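import Pool.Agent.TriCov.Upper

/-! Coverings of `T_x` by homothetic unit triangles.  Lower bound by folded chords. -/

set_option autoImplicit false

namespace Pool.Agent.TriCov

open MeasureTheory Set

/-- left end of the section at height `v` -/
noncomputable def lft (a : (ℝ × ℝ) × Bool) (v : ℝ) : ℝ :=
  if a.2 = true then a.1.1 else a.1.1 + a.1.2 - 1 - v

/-- right end of the section at height `v` -/
noncomputable def rgt (a : (ℝ × ℝ) × Bool) (v : ℝ) : ℝ :=
  if a.2 = true then (if a.1.2 ≤ v then a.1.1 + a.1.2 + 1 - v else a.1.1)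
  else (if v ≤ a.1.2 then a.1.1 else a.1.1 + a.1.2 - 1 - v)

/-- folded chord -/
noncomputable def ph (a : (ℝ × ℝ) × Bool) (t : ℝ) : ℝ :=
  if a.2 = true then 1 - Int.fract (t - a.1.2) else 1 - Int.fract (a.1.2 - t)

theorem sec_sub (a : (ℝ × ℝ) × Bool) (u v : ℝ) (h : (u, v) ∈ Pc a) :
    u ∈ Icc (lft a v) (rgt a v) := by
  obtain ⟨z, b⟩ := a
  cases b
  · rw [mem_Pc_false] at h
    simp only at h
    simp only [lft, rgt, Bool.false_eq_true, if_false, mem_Icc]
    rw [if_pos h.2.1]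
    exact ⟨by linarith [h.2.2], h.1⟩
  · rw [mem_Pc_true] at h
    simp only at h
    simp only [lft, rgt, if_true, mem_Icc]
    rw [if_pos h.2.1]
    exact ⟨h.1, by linarith [h.2.2]⟩

theorem level_le {N : ℕ} (F : Fin N → (ℝ × ℝ) × Bool) (x : ℝ)
    (hF : ∀ p ∈ Del x, ∃ i, p ∈ Pc (F i)) (v : ℝ) (hv : 0 ≤ v) :
    x - v ≤ ∑ i, max 0 (rgt (F i) v - lft (F i) v) := by
  have h1 : Icc (0 : ℝ) (x - v) ⊆ ⋃ i ∈ (Finset.univ : Finset (Fin N)),
      Icc (lft (F i) v) (rgt (F i) v) := by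
    intro u hu
    obtain ⟨i, hi⟩ := hF (u, v) ⟨hu.1, hv, by simp only; linarith [hu.2]⟩
    simp only [Finset.mem_univ, iUnion_true, mem_iUnion]
    exact ⟨i, sec_sub _ _ _ hi⟩
  have h2 : volume (Icc (0 : ℝ) (x - v)) ≤
      ∑ i, volume (Icc (lft (F i) v) (rgt (F i) v)) :=
    (measure_mono h1).trans (measure_biUnion_finset_le _ _)
  simp only [Real.volume_Icc, sub_zero] at h2
  have h3 : ∑ i, ENNReal.ofReal (rgt (F i) v - lft (F i) v) =
      ENNReal.ofReal (∑ i, max 0 (rgt (F i) v - lft (F i) v)) := by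
    rw [ENNReal.ofReal_sum_of_nonneg (fun i _ => le_max_left _ _)]
    refine Finset.sum_congr rfl fun i _ => ?_
    rcases le_total 0 (rgt (F i) v - lft (F i) v) with h | h
    · rw [max_eq_right h]
    · rw [max_eq_left h, ENNReal.ofReal_of_nonpos h, ENNReal.ofReal_zero]
  rw [h3] at h2
  exact (ENNReal.ofReal_le_ofReal_iff
    (Finset.sum_nonneg fun i _ => le_max_left _ _)).1 h2

theorem ph_nonneg (a : (ℝ × ℝ) × Bool) (t : ℝ) : 0 ≤ ph a t := by
  unfold ph
  split_ifs
  · linarith [Int.fract_lt_one (t - a.1.2)]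
  · linarith [Int.fract_lt_one (a.1.2 - t)]

/-- one level contributes only for one index -/
theorem len_le (a : (ℝ × ℝ) × Bool) (t : ℝ) (k : ℕ) :
    max 0 (rgt a (t + k) - lft a (t + k)) ≤
      if (k : ℤ) = (if a.2 = true then -⌊t - a.1.2⌋ else ⌊a.1.2 - t⌋) then ph a t else 0 := by
  obtain ⟨z, b⟩ := a
  cases b
  · simp only [rgt, lft, ph, Bool.false_eq_true, if_false]
    split_ifs with h1 h2 h2
    · -- v ≤ z.2 and k = floor
      have h3 : (k : ℝ) = (⌊z.2 - t⌋ : ℝ) := by exact_mod_cast h2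
      have h4 : Int.fract (z.2 - t) = z.2 - t - k := by
        rw [h3]; exact (Int.self_sub_floor _).symm
      rw [h4]
      have h5 : 0 ≤ 1 - (z.2 - t - k) := by
        rw [← h4]; linarith [Int.fract_lt_one (z.2 - t)]
      apply max_le h5
      linarith
    · -- other
      apply max_le le_rfl
      by_contra hcon
      push Not at hcon
      apply h2
      symm
      rw [Int.floor_eq_iff]
      push_cast
      constructor <;> linarith
    · rw [max_eq_left (by linarith)]
      linarith [Int.fract_lt_one (z.2 - t)]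
    · simp
  · simp only [rgt, lft, ph, if_true]
    split_ifs with h1 h2 h2
    · have h3 : (k : ℝ) = -(⌊t - z.2⌋ : ℝ) := by exact_mod_cast h2
      have h4 : Int.fract (t - z.2) = t - z.2 + k := by
        rw [h3, ← sub_eq_add_neg]; exact (Int.self_sub_floor _).symm
      rw [h4]
      have h5 : 0 ≤ 1 - (t - z.2 + k) := by
        rw [← h4]; linarith [Int.fract_lt_one (t - z.2)]
      apply max_le h5
      linarith
    · apply max_le le_rfl
      by_contra hcon
      push Not at hcon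
      apply h2
      have : ⌊t - z.2⌋ = -(k : ℤ) := by
        rw [Int.floor_eq_iff]
        push_cast
        constructor <;> linarith
      rw [this]
      ring
    · rw [max_eq_left (by linarith)]
      linarith [Int.fract_lt_one (t - z.2)]
    · simp

theorem sum_len_le (a : (ℝ × ℝ) × Bool) (t : ℝ) (j : ℕ) :
    ∑ k ∈ Finset.range j, max 0 (rgt a (t + k) - lft a (t + k)) ≤ ph a t := by
  refine (Finset.sum_le_sum fun k _ => len_le a t k).trans ?_
  set m : ℤ := (if a.2 = true then -⌊t - a.1.2⌋ else ⌊a.1.2 - t⌋) with hm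
  by_cases h : ∃ k ∈ Finset.range j, (k : ℤ) = m
  · obtain ⟨k, hk, hkm⟩ := h
    rw [Finset.sum_eq_single k]
    · rw [if_pos hkm]
    · intro l _ hl
      rw [if_neg]
      intro h2
      exact hl (by exact_mod_cast h2.trans hkm.symm)
    · intro h; exact absurd hk h
  · rw [Finset.sum_eq_zero]
    · exact ph_nonneg a t
    · intro k hk
      rw [if_neg]
      exact fun h2 => h ⟨k, hk, h2⟩

theorem chord_le {N : ℕ} (F : Fin N → (ℝ × ℝ) × Bool) (x : ℝ)
    (hF : ∀ p ∈ Del x, ∃ i, p ∈ Pc (F i)) (j : ℕ) (t : ℝ) (ht : 0 ≤ t) :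
    j * (x - t) - j * (j - 1) / 2 ≤ ∑ i, ph (F i) t := by
  have h1 : ∑ k ∈ Finset.range j, (x - (t + k)) ≤
      ∑ k ∈ Finset.range j, ∑ i, max 0 (rgt (F i) (t + k) - lft (F i) (t + k)) :=
    Finset.sum_le_sum fun k _ => level_le F x hF _ (by positivity)
  rw [Finset.sum_comm] at h1
  have h2 : ∑ k ∈ Finset.range j, (x - (t + (k : ℝ))) = j * (x - t) - j * (j - 1) / 2 := by
    induction j with
    | zero => simp
    | succ j ih =>
      have := ih (by
        rw [Finset.sum_comm] 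
        exact Finset.sum_le_sum fun k _ => level_le F x hF _ (by positivity))
      rw [Finset.sum_range_succ, this]
      push_cast
      ring
  rw [← h2]
  exact h1.trans (Finset.sum_le_sum fun i _ => sum_len_le _ _ _)

/-! ### integrals -/

theorem fract_intervalIntegrable (a b : ℝ) :
    IntervalIntegrable (fun t : ℝ => Int.fract t) volume a b := by
  refine (intervalIntegrable_const (c := (1 : ℝ))).mono_fun ?_ ?_
  · exact measurable_fract.aestronglyMeasurable
  · refine Filter.Eventually.of_forall fun t => ?_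
    simp only [Real.norm_eq_abs, abs_one]
    rw [abs_of_nonneg (Int.fract_nonneg t)]
    exact (Int.fract_lt_one t).le

theorem integral_fract_one : ∫ t in (0 : ℝ)..1, Int.fract t = 1 / 2 := by
  have h : ∫ t in (0 : ℝ)..1, Int.fract t = ∫ t in (0 : ℝ)..1, t := by
    apply intervalIntegral.integral_congr_ae
    have h1 : ∀ᵐ t : ℝ ∂volume, t ≠ 1 := by
      rw [ae_iff]
      simp
    filter_upwards [h1] with t ht ht'
    rw [uIoc_of_le zero_le_one] at ht'
    exact Int.fract_eq_self.2 ⟨ht'.1.le, lt_of_le_of_ne ht'.2 ht⟩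
  rw [h, integral_id]
  norm_num

theorem integral_fract_affine (c : ℝ) (s : ℤ) (hs : s ≠ 0) :
    ∫ t in (0 : ℝ)..1, Int.fract (c + s * t) = 1 / 2 := by
  have hs' : (s : ℝ) ≠ 0 := by exact_mod_cast hs
  have h1 := intervalIntegral.integral_comp_add_mul (a := (0 : ℝ)) (b := 1)
    (fun t : ℝ => Int.fract t) hs' c
  rw [h1]
  have h2 : c + (s : ℝ) * 1 = (c + (s : ℝ) * 0) + s • (1 : ℝ) := by simp
  rw [h2]
  have hp : Function.Periodic (fun t : ℝ => Int.fract t) 1 := Int.fract_periodic ℝ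
  rw [hp.intervalIntegral_add_zsmul_eq s _ (fun a b => fract_intervalIntegrable a b)]
  have h3 := hp.intervalIntegral_add_eq 0 (c + (s : ℝ) * 0)
  rw [zero_add] at h3
  rw [← h3, integral_fract_one]
  simp only [smul_eq_mul, zsmul_eq_mul]
  field_simp

theorem fract_comp_ii (g : ℝ → ℝ) (hg : Measurable g) {a b : ℝ} :
    IntervalIntegrable (fun t : ℝ => Int.fract (g t)) volume a b := by
  refine (intervalIntegrable_const (c := (1 : ℝ))).mono_fun ?_ ?_
  · exact (measurable_fract.comp hg).aestronglyMeasurable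
  · refine Filter.Eventually.of_forall fun t => ?_
    simp only [Real.norm_eq_abs, abs_one]
    rw [abs_of_nonneg (Int.fract_nonneg _)]
    exact (Int.fract_lt_one _).le

theorem integral_ph (a : (ℝ × ℝ) × Bool) : ∫ t in (0 : ℝ)..1, ph a t = 1 / 2 := by
  unfold ph
  split_ifs
  · rw [intervalIntegral.integral_sub]
    · have := integral_fract_affine (-a.1.2) 1 (by norm_num)
      have h : (fun t : ℝ => Int.fract (t - a.1.2)) =
          fun t : ℝ => Int.fract (-a.1.2 + ((1 : ℤ) : ℝ) * t) := by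
        funext t; congr 1; push_cast; ring
      rw [h, this]; norm_num
    · exact intervalIntegrable_const
    · exact fract_comp_ii (fun t => t - a.1.2) (measurable_id.sub measurable_const)
  · rw [intervalIntegral.integral_sub]
    · have := integral_fract_affine (a.1.2) (-1) (by norm_num)
      have h : (fun t : ℝ => Int.fract (a.1.2 - t)) =
          fun t : ℝ => Int.fract (a.1.2 + ((-1 : ℤ) : ℝ) * t) := by
        funext t; congr 1; push_cast; ring
      rw [h, this]; norm_num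
    · exact intervalIntegrable_const
    · exact fract_comp_ii (fun t => a.1.2 - t) (measurable_const.sub measurable_id)

theorem ph_ii (a : (ℝ × ℝ) × Bool) (x y : ℝ) : IntervalIntegrable (ph a) volume x y := by
  unfold ph
  split_ifs
  · exact intervalIntegrable_const.sub
      (fract_comp_ii (fun t => t - a.1.2) (measurable_id.sub measurable_const))
  · exact intervalIntegrable_const.sub
      (fract_comp_ii (fun t => a.1.2 - t) (measurable_const.sub measurable_id))

/-- number of ups minus number of downs -/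
def dd {N : ℕ} (F : Fin N → (ℝ × ℝ) × Bool) : ℤ := ∑ i, if (F i).2 = true then (1 : ℤ) else -1

theorem dd_parity {N : ℕ} (F : Fin N → (ℝ × ℝ) × Bool) : ∃ e : ℤ, (N : ℤ) = dd F + 2 * e := by
  refine ⟨∑ i, if (F i).2 = true then (0 : ℤ) else 1, ?_⟩
  unfold dd
  rw [Finset.mul_sum, ← Finset.sum_add_distrib]
  have : ∀ i ∈ (Finset.univ : Finset (Fin N)), ((if (F i).2 = true then (1 : ℤ) else -1) +
      2 * if (F i).2 = true then (0 : ℤ) else 1) = 1 := by
    intro i _
    split_ifs <;> norm_num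
  rw [Finset.sum_congr rfl this]
  simp

/-- the folded chord function is linear mod 1 -/
theorem ph_mod {N : ℕ} (F : Fin N → (ℝ × ℝ) × Bool) :
    ∃ C : ℝ, ∀ t : ℝ, ∃ m : ℤ, ∑ i, ph (F i) t = C - dd F * t + m := by
  refine ⟨∑ i, (1 + if (F i).2 = true then (F i).1.2 else -(F i).1.2), fun t =>
    ⟨∑ i, if (F i).2 = true then ⌊t - (F i).1.2⌋ else ⌊(F i).1.2 - t⌋, ?_⟩⟩
  unfold dd
  push_cast
  rw [Finset.sum_mul, ← Finset.sum_sub_distrib, ← Finset.sum_add_distrib]
  refine Finset.sum_congr rfl fun i _ => ?_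
  unfold ph
  split_ifs
  · rw [← Int.self_sub_floor]; push_cast; ring
  · rw [← Int.self_sub_floor]; push_cast; ring

theorem key {N : ℕ} (F : Fin N → (ℝ × ℝ) × Bool) (x : ℝ)
    (hF : ∀ p ∈ Del x, ∃ i, p ∈ Pc (F i)) (j : ℕ) (hj : dd F ≠ j) :
    2 * j * x - j ^ 2 + 1 ≤ (N : ℝ) := by
  obtain ⟨C, hC⟩ := ph_mod F
  set C' : ℝ := C - j * x + j * (j - 1) / 2 with hC'
  have hpt : ∀ t ∈ Icc (0 : ℝ) 1, Int.fract (C' + ((j - dd F : ℤ) : ℝ) * t) ≤
      (∑ i, ph (F i) t) - (j * (x - t) - j * (j - 1) / 2) := by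
    intro t ht
    have h0 := chord_le F x hF j t ht.1
    obtain ⟨m, hm⟩ := hC t
    have h1 : (∑ i, ph (F i) t) - (j * (x - t) - j * (j - 1) / 2) =
        C' + ((j - dd F : ℤ) : ℝ) * t + m := by
      rw [hm, hC']; push_cast; ring
    rw [h1]
    have h2 : (0 : ℝ) ≤ C' + ((j - dd F : ℤ) : ℝ) * t + m := by linarith
    have h3 : Int.fract (C' + ((j - dd F : ℤ) : ℝ) * t) =
        Int.fract (C' + ((j - dd F : ℤ) : ℝ) * t + m) := by
      rw [Int.fract_add_intCast]
    rw [h3]
    have h4 : (0 : ℝ) ≤ (⌊C' + ((j - dd F : ℤ) : ℝ) * t + m⌋ : ℝ) := by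
      exact_mod_cast Int.floor_nonneg.2 h2
    have h5 := Int.self_sub_floor (C' + ((j - dd F : ℤ) : ℝ) * t + m)
    linarith
  have hne : (j - dd F : ℤ) ≠ 0 := fun h => hj (by linarith)
  have hint1 : IntervalIntegrable (fun t : ℝ => ∑ i, ph (F i) t) volume 0 1 := by
    have := IntervalIntegrable.sum (Finset.univ : Finset (Fin N)) (f := fun i => ph (F i))
      (μ := volume) (a := (0 : ℝ)) (b := 1) (fun i _ => ph_ii _ _ _)
    have h8 : (∑ i, ph (F i)) = fun t : ℝ => ∑ i, ph (F i) t := by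
      funext t
      simp
    rw [h8] at this
    exact this
  have hint2 : IntervalIntegrable (fun t : ℝ => (j * (x - t) - j * (j - 1) / 2 : ℝ))
      volume 0 1 := by
    apply Continuous.intervalIntegrable
    fun_prop
  have hmono := intervalIntegral.integral_mono_on (a := (0 : ℝ)) (b := 1) zero_le_one
    (fract_comp_ii (fun t => C' + ((j - dd F : ℤ) : ℝ) * t)
      (measurable_const.add (measurable_const.mul measurable_id))) (hint1.sub hint2) hpt
  rw [integral_fract_affine _ _ hne, intervalIntegral.integral_sub hint1 hint2,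
    intervalIntegral.integral_finsetSum (fun i _ => ph_ii _ _ _)] at hmono
  simp only [integral_ph] at hmono
  have h6 : ∫ t in (0 : ℝ)..1, (j * (x - t) - j * (j - 1) / 2 : ℝ) =
      j * (x - 1 / 2) - j * (j - 1) / 2 := by
    have h7 : (fun t : ℝ => (j * (x - t) - j * (j - 1) / 2 : ℝ)) =
        fun t : ℝ => (j * x - j * (j - 1) / 2) - j * t := by
      funext t; ring
    have h9 : IntervalIntegrable (fun t : ℝ => (j : ℝ) * t) volume 0 1 := by
      apply Continuous.intervalIntegrable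
      fun_prop
    rw [h7, intervalIntegral.integral_sub intervalIntegrable_const h9,
      intervalIntegral.integral_const, intervalIntegral.integral_const_mul, integral_id]
    simp only [smul_eq_mul]
    ring
  rw [h6] at hmono
  simp only [Finset.sum_const, Finset.card_univ, Fintype.card_fin, nsmul_eq_mul] at hmono
  linarith

theorem lower_fin (n : ℕ) (ξ : ℝ) (hξ : 0 < ξ) (N : ℕ) (F : Fin N → (ℝ × ℝ) × Bool)
    (hF : ∀ p ∈ Del (n + ξ), ∃ i, p ∈ Pc (F i)) :
    min (n ^ 2 + 2 * ⌈((n : ℝ) + 1) * ξ⌉₊) (n ^ 2 + 1 + 2 * ⌈(n : ℝ) * ξ⌉₊) ≤ N := by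
  obtain ⟨e, he⟩ := dd_parity F
  rcases Int.even_or_odd ((N : ℤ) - n) with hpar | hpar
  · -- `N ≡ n`
    have h1 : dd F ≠ ((n + 1 : ℕ) : ℤ) := by
      intro h1
      rw [h1] at he
      obtain ⟨r, hr⟩ := hpar
      push_cast at he
      omega
    have h2 := key F _ hF (n + 1) h1
    apply min_le_of_left_le
    -- N - n^2 is even
    have h3 : (n : ℝ) ^ 2 + 2 * (((n : ℝ) + 1) * ξ) ≤ N := by
      push_cast at h2
      nlinarith
    have hn2 : n ^ 2 ≤ N := by
      have : (n : ℝ) ^ 2 ≤ N := by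
        have : 0 ≤ ((n : ℝ) + 1) * ξ := by positivity
        linarith
      exact_mod_cast this
    obtain ⟨w, hw⟩ : ∃ w, N = n ^ 2 + 2 * w := by
      have h4 : Even ((N : ℤ) - (n : ℤ) ^ 2) := by
        have h5 : (N : ℤ) - (n : ℤ) ^ 2 = ((N : ℤ) - n) - (n : ℤ) * ((n : ℤ) - 1) := by ring
        rw [h5]
        exact hpar.sub (Int.even_mul_pred_self n)
      obtain ⟨r, hr⟩ := h4
      refine ⟨r.toNat, ?_⟩
      zify
      have : (0 : ℤ) ≤ (N : ℤ) - (n : ℤ) ^ 2 := by
        have : ((n ^ 2 : ℕ) : ℤ) ≤ N := by exact_mod_cast hn2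
        push_cast at this
        linarith
      rw [Int.toNat_of_nonneg (by omega)]
      linarith
    have h5 : ⌈((n : ℝ) + 1) * ξ⌉₊ ≤ w := by
      apply Nat.ceil_le.2
      have : (N : ℝ) = (n : ℝ) ^ 2 + 2 * w := by rw [hw]; push_cast; ring
      linarith
    omega
  · have h1 : dd F ≠ (n : ℤ) := by
      intro h1
      rw [h1] at he
      obtain ⟨r, hr⟩ := hpar
      omega
    have h2 := key F _ hF n h1
    apply min_le_of_right_le
    have h3 : (n : ℝ) ^ 2 + 1 + 2 * ((n : ℝ) * ξ) ≤ N := by nlinarith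
    have hn2 : n ^ 2 + 1 ≤ N := by
      have : (n : ℝ) ^ 2 + 1 ≤ N := by
        have : 0 ≤ (n : ℝ) * ξ := by positivity
        linarith
      exact_mod_cast this
    obtain ⟨w, hw⟩ : ∃ w, N = n ^ 2 + 1 + 2 * w := by
      have h4 : Even ((N : ℤ) - (n : ℤ) ^ 2 - 1) := by
        have h5 : (N : ℤ) - (n : ℤ) ^ 2 - 1 = (((N : ℤ) - n) - 1) - (n : ℤ) * ((n : ℤ) - 1) := by
          ring
        rw [h5]
        exact (hpar.sub_odd odd_one).sub (Int.even_mul_pred_self n)
      obtain ⟨r, hr⟩ := h4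
      refine ⟨r.toNat, ?_⟩
      zify
      have : (0 : ℤ) ≤ (N : ℤ) - (n : ℤ) ^ 2 - 1 := by
        have : ((n ^ 2 + 1 : ℕ) : ℤ) ≤ N := by exact_mod_cast hn2
        push_cast at this
        linarith
      rw [Int.toNat_of_nonneg (by omega)]
      linarith
    have h5 : ⌈(n : ℝ) * ξ⌉₊ ≤ w := by
      apply Nat.ceil_le.2
      have : (N : ℝ) = (n : ℝ) ^ 2 + 1 + 2 * w := by rw [hw]; push_cast; ring
      linarith
    omega

theorem cov_iff_fin (x : ℝ) (N : ℕ) :
    Cov x N ↔ ∃ F : Fin N → (ℝ × ℝ) × Bool, ∀ p ∈ Del x, ∃ i, p ∈ Pc (F i) := by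
  constructor
  · rintro ⟨L, rfl, h⟩
    refine ⟨L.get, fun p hp => ?_⟩
    obtain ⟨a, ha, hpa⟩ := h p hp
    obtain ⟨i, hi⟩ := List.get_of_mem ha
    exact ⟨i, by rw [hi]; exact hpa⟩
  · rintro ⟨F, h⟩
    refine ⟨List.ofFn F, List.length_ofFn, fun p hp => ?_⟩
    obtain ⟨i, hi⟩ := h p hp
    exact ⟨F i, by simp [List.mem_ofFn], hi⟩

/-- the exact covering number in the model -/
theorem model (n : ℕ) (ξ : ℝ) (h0 : 0 < ξ) (h1 : ξ ≤ 1) (N : ℕ) :
    (∃ F : Fin N → (ℝ × ℝ) × Bool, ∀ p ∈ Del (n + ξ), ∃ i, p ∈ Pc (F i)) ↔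
    min (n ^ 2 + 2 * ⌈((n : ℝ) + 1) * ξ⌉₊) (n ^ 2 + 1 + 2 * ⌈(n : ℝ) * ξ⌉₊) ≤ N := by
  constructor
  · rintro ⟨F, hF⟩
    exact lower_fin n ξ h0 N F hF
  · intro h
    exact (cov_iff_fin _ _).1 (upper n ξ h0 h1 N h)

end Pool.Agent.TriCov
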