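import Mathlib

/-! Coverings of `T_x` by homothetic unit triangles (model: right-angled triangles in `ℝ × ℝ`).
Constructions. -/

set_option autoImplicit false

namespace Pool.Agent.TriCov

/-- The standard right-angled model triangle. -/
def Del (x : ℝ) : Set (ℝ × ℝ) := {p | 0 ≤ p.1 ∧ 0 ≤ p.2 ∧ p.1 + p.2 ≤ x}

/-- `true`: translate of `Del 1`; `false`: translate of `-Del 1`. -/
def Pc (a : (ℝ × ℝ) × Bool) : Set (ℝ × ℝ) :=
  {p | if a.2 = true then a.1.1 ≤ p.1 ∧ a.1.2 ≤ p.2 ∧ p.1 + p.2 ≤ a.1.1 + a.1.2 + 1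
       else p.1 ≤ a.1.1 ∧ p.2 ≤ a.1.2 ∧ a.1.1 + a.1.2 - 1 ≤ p.1 + p.2}

theorem mem_Pc_true (z p : ℝ × ℝ) :
    p ∈ Pc (z, true) ↔ z.1 ≤ p.1 ∧ z.2 ≤ p.2 ∧ p.1 + p.2 ≤ z.1 + z.2 + 1 := by
  simp [Pc]

theorem mem_Pc_false (z p : ℝ × ℝ) :
    p ∈ Pc (z, false) ↔ p.1 ≤ z.1 ∧ p.2 ≤ z.2 ∧ z.1 + z.2 - 1 ≤ p.1 + p.2 := by
  simp [Pc]

def Cov (x : ℝ) (N : ℕ) : Prop :=
  ∃ L : List ((ℝ × ℝ) × Bool), L.length = N ∧ ∀ p ∈ Del x, ∃ a ∈ L, p ∈ Pc a

def Cov' (x : ℝ) (N : ℕ) : Prop :=
  ∃ L : List ((ℝ × ℝ) × Bool), L.length = N ∧ ∀ p ∈ Del x, 0 < p.2 → ∃ a ∈ L, p ∈ Pc a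

theorem Cov.cov' {x : ℝ} {N : ℕ} (h : Cov x N) : Cov' x N := by
  obtain ⟨L, hL, h⟩ := h
  exact ⟨L, hL, fun p hp _ => h p hp⟩

theorem Cov.mono {x y : ℝ} {N M : ℕ} (h : Cov x N) (hy : y ≤ x) (hM : N ≤ M) : Cov y M := by
  obtain ⟨L, hL, h⟩ := h
  refine ⟨L ++ List.replicate (M - N) ((0, 0), true), ?_, fun p hp => ?_⟩
  · simp only [List.length_append, List.length_replicate]
    omega
  · obtain ⟨a, ha, hpa⟩ := h p ⟨hp.1, hp.2.1, hp.2.2.trans hy⟩
    exact ⟨a, List.mem_append_left _ ha, hpa⟩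

theorem strip {x : ℝ} {N : ℕ} (h : Cov' x N) (U : ℕ) (hU : 0 < U) (hx : -1 < x) :
    Cov (1 + (U - 1) * ((x + 1) / U)) (N + (2 * U - 1)) := by
  obtain ⟨L, hL, h⟩ := h
  have hU' : (0 : ℝ) < U := by exact_mod_cast hU
  set s : ℝ := (x + 1) / U with hs
  have hs0 : 0 < s := by rw [hs]; apply div_pos <;> linarith
  have hsU : s * U = x + 1 := by rw [hs]; field_simp
  set H : ℝ := 2 - s with hH
  refine ⟨L.map (fun a => ((a.1.1, a.1.2 + H), a.2)) ++
    ((List.range U).map (fun i : ℕ => (((i : ℝ) * s, (0 : ℝ)), true)) ++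
      (List.range (U - 1)).map (fun i : ℕ => ((((i : ℝ) + 1) * s, H), false))), ?_, ?_⟩
  · simp only [List.length_append, List.length_map, List.length_range]
    omega
  · rintro ⟨u, v⟩ ⟨hu, hv, huv⟩
    simp only at hu hv huv
    by_cases hvH : H < v
    · obtain ⟨a, ha, hpa⟩ := h (u, v - H) ⟨hu, by simp only; linarith, by
        simp only
        have : (x : ℝ) = s * U - 1 := by linarith
        nlinarith⟩ (by simp only; linarith)
      refine ⟨((a.1.1, a.1.2 + H), a.2), ?_, ?_⟩
      · exact List.mem_append_left _ (List.mem_map.2 ⟨a, ha, rfl⟩)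
      · obtain ⟨z, b⟩ := a
        cases b
        · rw [mem_Pc_false] at hpa
          simp only at hpa
          rw [mem_Pc_false]
          simp only
          exact ⟨hpa.1, by linarith [hpa.2.1], by linarith [hpa.2.2]⟩
        · rw [mem_Pc_true] at hpa
          simp only at hpa
          rw [mem_Pc_true]
          simp only
          exact ⟨hpa.1, by linarith [hpa.2.1], by linarith [hpa.2.2]⟩
    · have hvH : v ≤ H := not_lt.1 hvH
      -- the last multiple of `s` below `u`
      set i : ℕ := min (U - 1) ⌊u / s⌋₊ with hi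
      have hiU : i < U := by
        have : i ≤ U - 1 := min_le_left _ _
        omega
      have his : (i : ℝ) * s ≤ u := by
        have h1 : (i : ℝ) ≤ (⌊u / s⌋₊ : ℝ) := by exact_mod_cast min_le_right _ _
        have h2 : (⌊u / s⌋₊ : ℝ) ≤ u / s := Nat.floor_le (by positivity)
        have h3 : (i : ℝ) ≤ u / s := h1.trans h2
        rwa [le_div_iff₀ hs0] at h3
      by_cases hw : u + v ≤ i * s + 1
      · refine ⟨(((i : ℝ) * s, (0 : ℝ)), true), ?_, ?_⟩
        · refine List.mem_append_right _ (List.mem_append_left _ (List.mem_map.2 ⟨i, ?_, rfl⟩))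
          exact List.mem_range.2 hiU
        · rw [mem_Pc_true]
          simp only
          exact ⟨his, hv, by linarith⟩
      · push Not at hw
        have hi1 : i < U - 1 := by
          by_contra hcon
          have hiU' : i = U - 1 := by omega
          have : (i : ℝ) = (U : ℝ) - 1 := by
            rw [hiU']
            push_cast [Nat.cast_sub hU]
            ring
          rw [this] at hw
          linarith
        have hfl : i = ⌊u / s⌋₊ := by
          rcases min_choice (U - 1) ⌊u / s⌋₊ with h1 | h1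
          · omega
          · rw [hi, h1]
        have hlt : u < ((i : ℝ) + 1) * s := by
          have h1 : u / s < (⌊u / s⌋₊ : ℝ) + 1 := Nat.lt_floor_add_one _
          rw [← hfl, div_lt_iff₀ hs0] at h1
          exact h1
        refine ⟨((((i : ℝ) + 1) * s, H), false), ?_, ?_⟩
        · refine List.mem_append_right _ (List.mem_append_right _ (List.mem_map.2 ⟨i, ?_, rfl⟩))
          exact List.mem_range.2 hi1
        · rw [mem_Pc_false]
          simp only
          refine ⟨hlt.le, hvH, ?_⟩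
          rw [hH]
          nlinarith

/-- the lattice tiling -/
theorem cov_nat (p : ℕ) : Cov' p (p ^ 2) ∧ (1 ≤ p → Cov p (p ^ 2)) := by
  induction p with
  | zero =>
    refine ⟨⟨[], rfl, ?_⟩, fun h => absurd h (by norm_num)⟩
    rintro ⟨u, v⟩ ⟨hu, hv, huv⟩ h
    simp only [Nat.cast_zero] at hu hv huv h
    linarith
  | succ p ih =>
    have h1 := strip ih.1 (p + 1) (Nat.succ_pos p) (by
      have : (0 : ℝ) ≤ p := Nat.cast_nonneg p
      linarith)
    have h2 : Cov ((p + 1 : ℕ) : ℝ) ((p + 1) ^ 2) := by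
      convert h1 using 1
      · push_cast
        have : (p : ℝ) + 1 ≠ 0 := by positivity
        field_simp
        ring
      · have : 2 * (p + 1) - 1 = 2 * p + 1 := by omega
        rw [this]
        ring
    exact ⟨h2.cov', fun _ => h2⟩

/-- first family -/
theorem cov_one (p : ℕ) (hp : 1 ≤ p) (q : ℕ) :
    Cov ((p + q : ℕ) - (q : ℝ) / ((p + q : ℕ) - 1)) ((p + q) ^ 2 - 2 * q) := by
  induction q with
  | zero => simpa using (cov_nat p).2 hp
  | succ q ih =>
    have hp' : (1 : ℝ) ≤ p := by exact_mod_cast hp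
    have hq' : (0 : ℝ) ≤ q := Nat.cast_nonneg q
    have hx : (-1 : ℝ) < (p + q : ℕ) - (q : ℝ) / ((p + q : ℕ) - 1) := by
      push_cast
      rcases Nat.eq_zero_or_pos q with h0 | h0
      · subst h0; simp; linarith
      · have hq1 : (1 : ℝ) ≤ q := by exact_mod_cast h0
        have h1 : (q : ℝ) / ((p : ℝ) + q - 1) ≤ 1 := by
          rw [div_le_one (by linarith)]
          linarith
        linarith
    have h1 := strip ih.cov' (p + q) (by omega) hx
    convert h1 using 1
    · push_cast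
      rcases Nat.eq_zero_or_pos q with h0 | h0
      · subst h0
        have : (p : ℝ) ≠ 0 := by positivity
        simp
        field_simp
        ring
      · have hq1 : (1 : ℝ) ≤ q := by exact_mod_cast h0
        have h2 : (p : ℝ) + q - 1 ≠ 0 := by
          have : (0 : ℝ) < (p : ℝ) + q - 1 := by linarith
          exact this.ne'
        have h3 : (p : ℝ) + q ≠ 0 := by positivity
        have h4 : (p : ℝ) + (q + 1) - 1 = p + q := by ring
        rw [h4]
        field_simp
        ring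
    · have h5 : 2 * q ≤ (p + q) ^ 2 := by nlinarith
      have h6 : (p + (q + 1)) ^ 2 = (p + q) ^ 2 + 2 * (p + q) + 1 := by ring
      rw [h6]
      omega

/-- second family -/
theorem cov_two (p : ℕ) (q : ℕ) :
    Cov' ((p + q : ℕ) + (q : ℝ) / ((p + q : ℕ) + 1)) ((p + q) ^ 2 + 2 * q) ∧
    (1 ≤ q → Cov ((p + q : ℕ) + (q : ℝ) / ((p + q : ℕ) + 1)) ((p + q) ^ 2 + 2 * q)) := by
  induction q with
  | zero => exact ⟨by simpa using (cov_nat p).1, fun h => absurd h (by norm_num)⟩
  | succ q ih =>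
    have hp' : (0 : ℝ) ≤ p := Nat.cast_nonneg p
    have hq' : (0 : ℝ) ≤ q := Nat.cast_nonneg q
    have hx : (-1 : ℝ) < (p + q : ℕ) + (q : ℝ) / ((p + q : ℕ) + 1) := by
      push_cast
      have : (0 : ℝ) ≤ (q : ℝ) / ((p : ℝ) + q + 1) := by positivity
      linarith
    have h1 := strip ih.1 (p + q + 2) (by omega) hx
    have h2 : Cov ((p + (q + 1) : ℕ) + ((q + 1 : ℕ) : ℝ) / ((p + (q + 1) : ℕ) + 1))
        ((p + (q + 1)) ^ 2 + 2 * (q + 1)) := by
      convert h1 using 1
      · push_cast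
        have h3 : (p : ℝ) + q + 1 ≠ 0 := by positivity
        have h4 : (p : ℝ) + q + 2 ≠ 0 := by positivity
        have h5 : (p : ℝ) + (q + 1) + 1 = p + q + 2 := by ring
        rw [h5]
        field_simp
        ring
      · have h6 : (p + (q + 1)) ^ 2 = (p + q) ^ 2 + 2 * (p + q) + 1 := by ring
        rw [h6]
        omega
    exact ⟨h2.cov', fun _ => h2⟩

theorem upper (n : ℕ) (ξ : ℝ) (_h0 : 0 < ξ) (h1 : ξ ≤ 1) (N : ℕ)
    (hN : min (n ^ 2 + 2 * ⌈((n : ℝ) + 1) * ξ⌉₊) (n ^ 2 + 1 + 2 * ⌈(n : ℝ) * ξ⌉₊) ≤ N) :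
    Cov (n + ξ) N := by
  have hn0 : (0 : ℝ) ≤ n := Nat.cast_nonneg n
  rcases min_le_iff.1 hN with h | h
  · set k := ⌈((n : ℝ) + 1) * ξ⌉₊ with hk
    have hk1 : ((n : ℝ) + 1) * ξ ≤ k := Nat.le_ceil _
    have hkn : k ≤ n + 1 := by
      rw [hk]
      apply Nat.ceil_le.2
      push_cast
      nlinarith
    have hk0 : 1 ≤ k := by
      rw [hk]
      apply Nat.one_le_ceil_iff.2
      positivity
    rcases Nat.lt_or_ge n k with h2 | h2
    · have hk' : k = n + 1 := by omega
      have h3 := (cov_nat (n + 1)).2 (by omega)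
      refine h3.mono ?_ ?_
      · push_cast; linarith
      · refine le_trans ?_ h
        rw [hk']
        nlinarith
    · have h3 := (cov_two (n - k) k).2 hk0
      have h4 : n - k + k = n := by omega
      rw [h4] at h3
      refine h3.mono ?_ h
      have : ξ ≤ k / ((n : ℝ) + 1) := by
        rw [le_div_iff₀ (by positivity)]
        linarith
      linarith
  · set k := ⌈(n : ℝ) * ξ⌉₊ with hk
    have hk1 : (n : ℝ) * ξ ≤ k := Nat.le_ceil _
    have hkn : k ≤ n := by
      rw [hk]
      apply Nat.ceil_le.2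
      nlinarith
    have h3 := cov_one (k + 1) (by omega) (n - k)
    have h4 : k + 1 + (n - k) = n + 1 := by omega
    rw [h4] at h3
    refine h3.mono ?_ ?_
    · rcases Nat.eq_zero_or_pos n with hn | hn
      · subst hn
        have : k = 0 := by omega
        simp [this]
        exact h1
      · have hn1 : (0 : ℝ) < n := by exact_mod_cast hn
        push_cast [Nat.cast_sub hkn]
        have h5 : ((n : ℝ) - k) / ((n : ℝ) + 1 - 1) = 1 - k / n := by
          have : (n : ℝ) + 1 - 1 = n := by ring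
          rw [this]
          field_simp
        rw [h5]
        have : ξ ≤ k / (n : ℝ) := by
          rw [le_div_iff₀ hn1]
          linarith
        linarith
    · have h6 : (n + 1) ^ 2 = n ^ 2 + 2 * n + 1 := by ring
      rw [h6]
      omega

end Pool.Agent.TriCov
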